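import Mathlib

namespace Pool.Agent.Results.MP_768819_an.Circuit

open Finset

/-- arc-length distance on a circle of length `L` -/
noncomputable def cd (L s t : ℝ) : ℝ := min |s - t| (L - |s - t|)

lemma chain {X : Type*} [SeminormedAddCommGroup X] (q : ℕ → X) (i j : ℕ) (h : i ≤ j) :
    ‖q j - q i‖ ≤ ∑ k ∈ range j, ‖q (k + 1) - q k‖ - ∑ k ∈ range i, ‖q (k + 1) - q k‖ := by
  induction j, h using Nat.le_induction with
  | base => simp
  | succ j hij ih =>
    rw [sum_range_succ]
    have : q (j + 1) - q i = (q (j + 1) - q j) + (q j - q i) := by abel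
    have h2 := norm_add_le (q (j + 1) - q j) (q j - q i)
    rw [← this] at h2
    linarith

lemma cd_conc (L a b s t : ℝ) (hab : a ≤ s) (hsb : s ≤ b) (ht : t ≤ a ∨ b ≤ t) (θ : ℝ)
    (h0 : 0 ≤ θ) (h1 : θ ≤ 1) (hs : s = (1 - θ) * a + θ * b) :
    (1 - θ) * cd L a t + θ * cd L b t ≤ cd L s t := by
  unfold cd
  have e1 : (1 - θ) * min |a - t| (L - |a - t|) ≤ (1 - θ) * |a - t| :=
    mul_le_mul_of_nonneg_left (min_le_left _ _) (by linarith)
  have e2 : (1 - θ) * min |a - t| (L - |a - t|) ≤ (1 - θ) * (L - |a - t|) :=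
    mul_le_mul_of_nonneg_left (min_le_right _ _) (by linarith)
  have e3 : θ * min |b - t| (L - |b - t|) ≤ θ * |b - t| :=
    mul_le_mul_of_nonneg_left (min_le_left _ _) h0
  have e4 : θ * min |b - t| (L - |b - t|) ≤ θ * (L - |b - t|) :=
    mul_le_mul_of_nonneg_left (min_le_right _ _) h0
  have key : |s - t| = (1 - θ) * |a - t| + θ * |b - t| := by
    rcases ht with ht | ht
    · rw [abs_of_nonneg (by linarith), abs_of_nonneg (by linarith), abs_of_nonneg (by linarith), hs]
      ring
    · rw [abs_of_nonpos (by linarith), abs_of_nonpos (by linarith), abs_of_nonpos (by linarith), hs]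
      ring
  apply le_min <;> nlinarith

theorem core {X : Type*} [NormedAddCommGroup X] [NormedSpace ℝ X] (r : ℕ) (hr : 0 < r)
    (q : ℕ → X) (hq : ∀ k, ‖q k‖ = 1) (hcl : q r = q 0) (w : ℕ → ℝ) (hw : ∀ k, 0 ≤ w k)
    (hw1 : ∑ k ∈ range r, w k = 1) (h0 : ∑ k ∈ range r, w k • q k = 0) :
    4 ≤ ∑ k ∈ range r, ‖q (k + 1) - q k‖ := by
  set t : ℕ → ℝ := fun j => ∑ k ∈ range j, ‖q (k + 1) - q k‖ with ht
  set L := t r with hL
  have mono : ∀ i j, i ≤ j → t i ≤ t j := fun i j h => by
    have := chain q i j h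
    have := norm_nonneg (q j - q i)
    simp only [ht]; linarith
  have t0 : t 0 = 0 := by simp [ht]
  have dist_le : ∀ i j, i ≤ r → j ≤ r → ‖q i - q j‖ ≤ cd L (t i) (t j) := by
    have aux : ∀ i j, i ≤ j → j ≤ r → ‖q j - q i‖ ≤ t j - t i ∧ ‖q j - q i‖ ≤ L - (t j - t i) := by
      intro i j hij hj
      refine ⟨chain q i j hij, ?_⟩
      have a1 := chain q j r hj
      have a2 := chain q 0 i (Nat.zero_le _)
      have : q j - q i = -((q r - q j) + (q i - q 0)) := by rw [hcl]; abel
      rw [this, norm_neg]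
      have := norm_add_le (q r - q j) (q i - q 0)
      have e : t 0 = ∑ k ∈ range 0, ‖q (k + 1) - q k‖ := rfl
      change ‖q r - q j‖ ≤ t r - t j at a1
      change ‖q i - q 0‖ ≤ t i - t 0 at a2
      linarith
    intro i j hi hj
    unfold cd
    rcases le_total i j with h | h
    · have := aux i j h hj
      rw [norm_sub_rev, abs_sub_comm, abs_of_nonneg (by linarith [mono i j h])]
      exact le_min this.1 this.2
    · have := aux j i h hi
      rw [abs_of_nonneg (by linarith [mono j i h])]
      exact le_min this.1 this.2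
  set F : ℝ → ℝ := fun s => ∑ k ∈ range r, w k * cd L s (t k) with hF
  have vert : ∀ i, i ≤ r → 1 ≤ F (t i) := by
    intro i hi
    have e : q i = ∑ k ∈ range r, w k • (q i - q k) := by
      simp only [smul_sub, sum_sub_distrib, h0, ← sum_smul, hw1, one_smul, sub_zero]
    calc (1 : ℝ) = ‖∑ k ∈ range r, w k • (q i - q k)‖ := by rw [← e, hq]
      _ ≤ ∑ k ∈ range r, ‖w k • (q i - q k)‖ := norm_sum_le _ _
      _ ≤ F (t i) := by
        apply sum_le_sum
        intro k hk
        rw [norm_smul, Real.norm_eq_abs, abs_of_nonneg (hw k)]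
        exact mul_le_mul_of_nonneg_left (dist_le i k hi (mem_range.1 hk).le) (hw k)
  have L0 : 0 ≤ L := by have := mono 0 r (Nat.zero_le _); linarith
  have sumF : F 0 + F (L / 2) = L / 2 := by
    simp only [hF]
    rw [← sum_add_distrib]
    have : ∀ k ∈ range r, w k * cd L 0 (t k) + w k * cd L (L / 2) (t k) = w k * (L / 2) := by
      intro k hk
      have a1 := mono 0 k (Nat.zero_le _)
      have a2 := mono k r (mem_range.1 hk).le
      rw [← mul_add]; congr 1
      unfold cd
      rw [zero_sub, abs_neg, abs_of_nonneg (by linarith)]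
      rcases le_total (t k) (L / 2) with h | h
      · rw [abs_of_nonneg (by linarith), min_eq_left (by linarith), min_eq_left (by linarith)]; ring
      · rw [abs_of_nonpos (by linarith), min_eq_right (by linarith), min_eq_left (by linarith)]; ring
    rw [sum_congr rfl this, ← sum_mul, hw1, one_mul]
  have mid : 1 ≤ F (L / 2) := by
    classical
    have hex : ∃ j, L / 2 ≤ t (j + 1) := ⟨r - 1, by rw [Nat.sub_add_cancel hr]; linarith⟩
    set j := Nat.find hex with hj
    have hj1 : L / 2 ≤ t (j + 1) := Nat.find_spec hex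
    have hjr : j + 1 ≤ r := by
      have : j ≤ r - 1 := Nat.find_min' hex (by rw [Nat.sub_add_cancel hr]; linarith)
      omega
    have hj0 : t j ≤ L / 2 := by
      rcases Nat.eq_zero_or_pos j with h | h
      · rw [h, t0]; linarith
      · have := Nat.find_min hex (m := j - 1) (by omega)
        rw [Nat.sub_add_cancel h] at this
        linarith [not_le.1 this]
    obtain ⟨θ, a0, a1, hs⟩ : ∃ θ : ℝ, 0 ≤ θ ∧ θ ≤ 1 ∧ L / 2 = (1 - θ) * t j + θ * t (j + 1) := by
      rcases eq_or_lt_of_le (mono j (j + 1) (Nat.le_succ _)) with h | h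
      · exact ⟨0, le_rfl, zero_le_one, by linarith⟩
      · refine ⟨(L / 2 - t j) / (t (j + 1) - t j), div_nonneg (by linarith) (by linarith),
          (div_le_one (by linarith)).2 (by linarith), ?_⟩
        have : t (j + 1) - t j ≠ 0 := by linarith
        field_simp; ring
    have c : (1 - θ) * F (t j) + θ * F (t (j + 1)) ≤ F (L / 2) := by
      simp only [hF, mul_sum]
      rw [← sum_add_distrib]
      apply sum_le_sum
      intro k _
      have := cd_conc L (t j) (t (j + 1)) (L / 2) (t k) hj0 hj1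
        (by rcases le_or_gt k j with h | h
            · exact Or.inl (mono _ _ h)
            · exact Or.inr (mono _ _ h)) θ a0 a1 hs
      have := mul_le_mul_of_nonneg_left this (hw k)
      linarith
    have v1 := vert j (by omega)
    have v2 := vert (j + 1) hjr
    nlinarith
  have v0 := vert 0 (Nat.zero_le _)
  rw [t0] at v0
  change 4 ≤ L
  linarith

theorem result (X : Type*) [NormedAddCommGroup X] [NormedSpace ℝ X] (r : ℕ) [NeZero r]
    (p : Fin r → X) (hp : ∀ i, ‖p i‖ = 1) (h0 : (0 : X) ∈ convexHull ℝ (Set.range p))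
    (σ : Equiv.Perm (Fin r)) :
    4 ≤ ∑ k : Fin r, ‖p (σ (k + 1)) - p (σ k)‖ := by
  have hr : 0 < r := Nat.pos_of_ne_zero (NeZero.ne r)
  have h1 : (0 : X) ∈ convexHull ℝ (Set.range (p ∘ σ)) := by
    rwa [Set.range_comp, σ.range_eq_univ, Set.image_univ]
  rw [convexHull_range_eq_exists_affineCombination] at h1
  obtain ⟨s, w, hw0, hw1, hw⟩ := h1
  rw [affineCombination_eq_linear_combination _ _ _ hw1] at hw
  classical
  have := core r hr (fun k => p (σ (Fin.ofNat r k))) (fun k => hp _) (by simp [Fin.ofNat])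
    (fun k => if Fin.ofNat r k ∈ s then w (Fin.ofNat r k) else 0)
    (fun k => by split_ifs with h; exacts [hw0 _ h, le_rfl]) ?_ ?_
  · rw [← Fin.sum_univ_eq_sum_range (fun k => ‖p (σ (Fin.ofNat r (k + 1))) - p (σ (Fin.ofNat r k))‖)]
      at this
    convert this using 5 with k
    · congr 1; ext; simp [Fin.ofNat, Fin.val_add]
    · congr 1; ext; simp [Fin.ofNat, Nat.mod_eq_of_lt k.2]
  · rw [← Fin.sum_univ_eq_sum_range
      (fun k => if Fin.ofNat r k ∈ s then w (Fin.ofNat r k) else 0), ← hw1]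
    have : ∀ k : Fin r, Fin.ofNat r k = k := fun k => by ext; simp [Fin.ofNat, Nat.mod_eq_of_lt k.2]
    simp [this]
  · rw [← Fin.sum_univ_eq_sum_range
      (fun k => (if Fin.ofNat r k ∈ s then w (Fin.ofNat r k) else 0) • p (σ (Fin.ofNat r k))), ← hw]
    have : ∀ k : Fin r, Fin.ofNat r k = k := fun k => by ext; simp [Fin.ofNat, Nat.mod_eq_of_lt k.2]
    simp [this, ite_smul]

end Pool.Agent.Results.MP_768819_an.Circuit
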